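import Pool.Agent.Lib.helper24.MaxInd

set_option autoImplicit false
open Set Function

namespace Pool.Agent.Results.MP_2fa24b_lc.Yes

abbrev F : Type := FreeGroup Bool

def a : F := FreeGroup.of false

def b : F := FreeGroup.of true

/-- the shift -/
def sh (g : F) (x : F → Bool) : F → Bool := fun h => x (g⁻¹ * h)

/-- the free part -/
def X : Set (F → Bool) := {x | ∀ g, g ≠ 1 → sh g x ≠ x}

/-- the edges of the Schreier graph, as a symmetric set of ordered pairs -/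
def E : Set ((F → Bool) × (F → Bool)) :=
  {p | p.1 ∈ X ∧ p.2 ∈ X ∧ (p.2 = sh a p.1 ∨ p.1 = sh a p.2 ∨ p.2 = sh b p.1 ∨ p.1 = sh b p.2)}

/-- `S · x` contains an edge of `A` -/
def Meets (S : Set F) (x : F → Bool) (A : Set ((F → Bool) × (F → Bool))) : Prop :=
  ∃ p ∈ A, (∃ s ∈ S, p.1 = sh s x) ∧ ∃ s ∈ S, p.2 = sh s x

lemma sh_sh (g h : F) (x : F → Bool) : sh g (sh h x) = sh (g * h) x := by
  funext k; simp [sh, mul_assoc]

lemma sh_one (x : F → Bool) : sh 1 x = x := by funext k; simp [sh]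

lemma sh_meas (g : F) : Measurable (sh g) := measurable_pi_lambda _ fun _ => measurable_pi_apply _

lemma free {x : F → Bool} (hx : x ∈ X) {g h : F} (e : sh g x = sh h x) : g = h := by
  by_contra c
  refine hx (h⁻¹ * g) (fun d => c (inv_mul_eq_one.1 d).symm) ?_
  rw [← sh_sh, e, sh_sh, inv_mul_cancel, sh_one]

lemma sh_mem {x : F → Bool} (hx : x ∈ X) (g : F) : sh g x ∈ X := fun h c e => by
  rw [sh_sh] at e
  exact c (by simpa using free hx e)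

lemma X_meas : MeasurableSet X := by
  simp only [X, ofPred_forall]
  exact MeasurableSet.iInter fun g => MeasurableSet.iInter fun _ =>
    (measurableSet_eq_fun (sh_meas g) measurable_id).compl

def Ed (g : F) (S : Set (F → Bool)) : Set ((F → Bool) × (F → Bool)) :=
  {p | p.1 ∈ X ∧ p.2 ∈ X ∧ (p.2 = sh g p.1 ∧ p.1 ∈ S ∨ p.1 = sh g p.2 ∧ p.2 ∈ S)}

lemma Ed_meas (g : F) {S : Set (F → Bool)} (hS : MeasurableSet S) : MeasurableSet (Ed g S) :=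
  (measurable_fst X_meas).inter ((measurable_snd X_meas).inter
    (((measurableSet_eq_fun measurable_snd ((sh_meas g).comp measurable_fst)).inter
      (measurable_fst hS)).union
    ((measurableSet_eq_fun measurable_fst ((sh_meas g).comp measurable_snd)).inter
      (measurable_snd hS))))

lemma mem_Ed {x : F → Bool} (hx : x ∈ X) {g h : F} {S : Set (F → Bool)} :
    (x, sh h x) ∈ Ed g S ↔ h = g ∧ x ∈ S ∨ g * h = 1 ∧ sh h x ∈ S := by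
  simp only [Ed, mem_ofPred_eq, hx, sh_mem hx, true_and, sh_sh]
  refine or_congr (and_congr_left' ⟨free hx, fun e => e ▸ rfl⟩)
    (and_congr_left' ⟨fun e => free hx (e.symm.trans (sh_one x).symm), fun e => ?_⟩)
  rw [e, sh_one]

lemma colour : ∃ P Q : Set (F → Bool), MeasurableSet P ∧ MeasurableSet Q ∧
    (∀ x ∈ X, ∃ k : ℤ, sh (a ^ k) x ∈ P) ∧ (∀ x ∈ X, ∃ k : ℤ, sh ((a⁻¹ * b * a) ^ k) x ∈ Q) ∧
    ∀ x ∈ X, ∃ k : ℤ, sh ((b * a) ^ k) x ∉ P ∩ Q := by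
  obtain ⟨u, hu⟩ : ∃ u, u = a⁻¹ * b * a := ⟨_, rfl⟩
  have hc : b * a = a * u := by rw [hu]; group
  rw [hc, ← hu]
  let k : Fin 6 → F := ![u, a * u, u⁻¹ * a * u, u⁻¹, (a * u)⁻¹, (u⁻¹ * a * u)⁻¹]
  have k1 : ∀ i, k i ≠ 1 := by
    intro i
    fin_cases i <;> simp only [k, hu] <;> decide
  obtain ⟨M, m1, m2, m3⟩ := Pool.Agent.Lib.helper24.max_indep X (fun i => sh (k i))
    (fun i => sh_meas _) (fun i => ⟨i + 3, fun x => by
      rw [sh_sh]; fin_cases i <;> simp [k, sh_one, mul_assoc]⟩)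
    (fun s : Finset (F × Bool) => {x | ∀ p ∈ s, x p.1 = p.2}) (fun s => by
      simp only [ofPred_forall]
      exact MeasurableSet.iInter fun p => MeasurableSet.iInter fun _ =>
        measurableSet_eq_fun (measurable_pi_apply p.1) measurable_const) (fun x hx => by
      choose g hg using fun i => ne_iff.1 (hx _ (k1 i))
      refine ⟨Finset.univ.image fun i => (g i, x (g i)), by simp, fun i h => hg i ?_⟩
      exact h (g i, x (g i)) (Finset.mem_image.2 ⟨i, Finset.mem_univ _, rfl⟩))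
  have n0 : ∀ x ∈ M, sh u x ∉ M := fun x hx => m2 x hx 0
  have n1 : ∀ x ∈ M, sh (a * u) x ∉ M := fun x hx => m2 x hx 1
  have n2 : ∀ x ∈ M, sh (u⁻¹ * a * u) x ∉ M := fun x hx => m2 x hx 2
  -- `M`, `N = u M`, `O = a u M`
  obtain ⟨N, hN⟩ : ∃ N, N = sh u⁻¹ ⁻¹' M := ⟨_, rfl⟩
  obtain ⟨O, hO⟩ : ∃ O, O = sh (a * u)⁻¹ ⁻¹' M := ⟨_, rfl⟩
  obtain ⟨W, hW⟩ : ∃ W, W = M ∪ N ∪ O := ⟨_, rfl⟩
  have mN : MeasurableSet N := hN ▸ sh_meas _ m1
  have mO : MeasurableSet O := hO ▸ sh_meas _ m1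
  have mW : MeasurableSet W := hW ▸ (m1.union mN).union mO
  have dMN : ∀ x ∈ N, x ∉ M := fun x hx => by
    have := n0 _ (hN ▸ hx)
    rwa [sh_sh, mul_inv_cancel, sh_one] at this
  have dMO : ∀ x ∈ O, x ∉ M := fun x hx => by
    have := n1 _ (hO ▸ hx)
    rwa [sh_sh, mul_inv_cancel, sh_one] at this
  have dNO : ∀ x ∈ O, x ∉ N := fun x hx => by
    have := n2 _ (hO ▸ hx)
    rwa [sh_sh, show u⁻¹ * a * u * (a * u)⁻¹ = u⁻¹ by group, ← mem_preimage, ← hN] at this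
  have aO : ∀ x ∈ O, sh a⁻¹ x ∈ N := fun x hx => by
    rw [hO, mem_preimage] at hx
    rwa [hN, mem_preimage, sh_sh, ← mul_inv_rev]
  have uN : ∀ x ∈ N, sh u⁻¹ x ∈ M := fun x hx => by rwa [hN] at hx
  have pW : ∀ x ∈ W, ∃ k : ℤ, sh (a ^ k) x ∈ M ∪ N := by
    rintro x hx
    rcases hW ▸ hx with h | h
    exacts [⟨0, by simpa [sh_one] using h⟩, ⟨-1, Or.inr (by simpa using aO x h)⟩]
  have qW : ∀ x ∈ W, ∃ k : ℤ, sh (u ^ k) x ∈ M ∪ O := by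
    rintro x hx
    rcases hW ▸ hx with (h | h) | h
    exacts [⟨0, Or.inl (by simpa [sh_one] using h)⟩, ⟨-1, Or.inl (by simpa using uN x h)⟩,
      ⟨0, Or.inr (by simpa [sh_one] using h)⟩]
  have tri : ∀ x ∈ X, x ∈ W ∨ sh a x ∈ W ∨ sh u⁻¹ x ∈ W := by
    intro x hx
    simp only [hW, hN, hO, mem_union, mem_preimage, sh_sh]
    rcases m3 _ (sh_mem hx u⁻¹) with h | ⟨i, h⟩
    · tauto
    rw [sh_sh] at h
    fin_cases i <;> simp only [k] at h <;> simp [mul_assoc, sh_one] at h ⊢ <;> tauto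
  refine ⟨M ∪ N ∪ (Wᶜ ∩ (sh a ⁻¹' W)ᶜ), M ∪ O ∪ (Wᶜ ∩ sh a ⁻¹' W),
    (m1.union mN).union (mW.compl.inter (sh_meas _ mW).compl),
    (m1.union mO).union (mW.compl.inter (sh_meas _ mW)), fun x hx => ?_, fun x hx => ?_,
    fun x hx => ?_⟩
  · by_cases h1 : x ∈ W
    · exact (pW x h1).imp fun k h => Or.inl h
    by_cases h2 : sh a x ∈ W
    · obtain ⟨k, h⟩ := pW _ h2
      exact ⟨k + 1, Or.inl (by rwa [zpow_add_one, ← sh_sh])⟩
    · exact ⟨0, Or.inr (by simpa [sh_one] using ⟨h1, h2⟩)⟩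
  · by_cases h1 : x ∈ W
    · exact (qW x h1).imp fun k h => Or.inl h
    by_cases h2 : sh a x ∈ W
    · exact ⟨0, Or.inr (by simpa [sh_one] using ⟨h1, h2⟩)⟩
    · obtain ⟨k, h⟩ := qW _ (((tri x hx).resolve_left h1).resolve_left h2)
      exact ⟨k - 1, Or.inl (by rwa [zpow_sub_one, ← sh_sh])⟩
  · have key : ∀ y, y ∉ M → y ∉ (M ∪ N ∪ (Wᶜ ∩ (sh a ⁻¹' W)ᶜ)) ∩ (M ∪ O ∪ (Wᶜ ∩ sh a ⁻¹' W)) := by
      rintro y h ⟨(c | c) | c, (d | d) | d⟩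
      any_goals contradiction
      exacts [dNO y d c, d.1 (hW ▸ Or.inl (Or.inr c)), c.1 (hW ▸ Or.inr d), c.2 d.2]
    by_cases h : x ∈ M
    · exact ⟨1, key _ (by simpa using n1 x h)⟩
    · exact ⟨0, key _ (by simpa [sh_one] using h)⟩

theorem result : ∃ A B C : Set ((F → Bool) × (F → Bool)),
    MeasurableSet A ∧ MeasurableSet B ∧ MeasurableSet C ∧
    (∀ p ∈ A, p.swap ∈ A) ∧ (∀ p ∈ B, p.swap ∈ B) ∧ (∀ p ∈ C, p.swap ∈ C) ∧
    Disjoint A B ∧ Disjoint A C ∧ Disjoint B C ∧ A ∪ B ∪ C = E ∧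
    ∀ x ∈ X, Meets {g | ∃ n : ℤ, g = a ^ n} x A ∧ Meets {g | ∃ n : ℤ, g = b ^ n} x B ∧
      Meets {g | ∃ n : ℤ, g = (b * a) ^ n ∨ g = a * (b * a) ^ n} x C := by
  obtain ⟨P, Q, mP, mQ, h1, h2, h3⟩ := colour
  have hE : E = Ed a univ ∪ Ed b univ := by
    ext p; simp only [E, Ed, mem_ofPred_eq, mem_union, mem_univ, and_true]; tauto
  have sw : ∀ g S, ∀ p ∈ Ed g S, p.swap ∈ Ed g S := fun g S p h => ⟨h.2.1, h.1, h.2.2.symm⟩
  have sw' : ∀ g S (p : (F → Bool) × (F → Bool)), p.swap ∈ Ed g S → p ∈ Ed g S :=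
    fun g S p h => sw g S _ h
  have sub : ∀ g S, Ed g S ⊆ Ed g univ := fun g S p h =>
    ⟨h.1, h.2.1, h.2.2.imp (fun c => ⟨c.1, trivial⟩) fun c => ⟨c.1, trivial⟩⟩
  have d1 : a ≠ b := by decide
  have d2 : b * a ≠ 1 := by decide
  have d3 : a * b ≠ 1 := by decide
  have d4 : a * a ≠ 1 := by decide
  have d5 : b * b ≠ 1 := by decide
  refine ⟨Ed a P, Ed b (sh a⁻¹ ⁻¹' Q), E \ (Ed a P ∪ Ed b (sh a⁻¹ ⁻¹' Q)), Ed_meas _ mP,
    Ed_meas _ (sh_meas _ mQ), ?_, sw _ _, sw _ _, fun p h => ⟨?_, fun c => h.2 ?_⟩, ?_,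
    disjoint_left.2 fun p c d => d.2 (Or.inl c), disjoint_left.2 fun p c d => d.2 (Or.inr c),
    union_sdiff_cancel (hE ▸ union_subset_union (sub _ _) (sub _ _)), fun x hx => ⟨?_, ?_, ?_⟩⟩
  · exact (hE ▸ (Ed_meas _ .univ).union (Ed_meas _ .univ)).diff
      ((Ed_meas _ mP).union (Ed_meas _ (sh_meas _ mQ)))
  · have := h.1
    rw [hE] at this ⊢
    exact this.imp (sw _ _ p) (sw _ _ p)
  · exact c.imp (sw' _ _ p) (sw' _ _ p)
  · refine disjoint_left.2 fun ⟨x, y⟩ c d => ?_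
    obtain ⟨hx, hy, ⟨e, -⟩ | ⟨e, -⟩⟩ := c <;> dsimp only at e hx hy <;> subst e
    · simp [mem_Ed hx, d1, d2] at d
    · simpa [mem_Ed hy, d1, d2] using sw _ _ _ d
  · obtain ⟨k, hk⟩ := h1 x hx
    exact ⟨(_, _), (mem_Ed (sh_mem hx _)).2 (Or.inl ⟨rfl, hk⟩), ⟨_, ⟨k, rfl⟩, rfl⟩,
      _, ⟨1 + k, rfl⟩, by rw [zpow_one_add, sh_sh]⟩
  · obtain ⟨k, hk⟩ := h2 _ (sh_mem hx a⁻¹)
    refine ⟨(_, _), (mem_Ed (sh_mem hx (b ^ k))).2 (Or.inl ⟨rfl, ?_⟩), ⟨_, ⟨k, rfl⟩, rfl⟩,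
      _, ⟨1 + k, rfl⟩, by rw [zpow_one_add, sh_sh]⟩
    rw [sh_sh, show (a⁻¹ * b * a) ^ k * a⁻¹ = a⁻¹ * b ^ k by
      rw [show a⁻¹ * b * a = a⁻¹ * b * a⁻¹⁻¹ by simp, conj_zpow]; group] at hk
    rwa [mem_preimage, sh_sh]
  · obtain ⟨k, hk⟩ := h3 x hx
    have hy := sh_mem hx ((b * a) ^ k)
    by_cases c : sh ((b * a) ^ k) x ∈ P
    · refine ⟨(sh a (sh ((b * a) ^ k) x), sh b (sh a (sh ((b * a) ^ k) x))), ⟨?_, ?_⟩,
        ⟨_, ⟨k, Or.inr rfl⟩, sh_sh _ _ _⟩, _, ⟨1 + k, Or.inl rfl⟩, by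
          rw [zpow_one_add, sh_sh, sh_sh, mul_assoc]⟩
      · exact hE ▸ Or.inr ((mem_Ed (sh_mem hy a)).2 (Or.inl ⟨rfl, trivial⟩))
      · have : sh ((b * a) ^ k) x ∉ Q := fun d => hk ⟨c, d⟩
        simp only [mem_union, mem_Ed (sh_mem hy a), d1.symm, d3, d5, false_and, or_false,
          false_or, true_and, mem_preimage]
        rwa [sh_sh a⁻¹, inv_mul_cancel, sh_one]
    · refine ⟨(sh ((b * a) ^ k) x, sh a (sh ((b * a) ^ k) x)), ⟨?_, ?_⟩,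
        ⟨_, ⟨k, Or.inl rfl⟩, rfl⟩, _, ⟨k, Or.inr rfl⟩, sh_sh _ _ _⟩
      · exact hE ▸ Or.inl ((mem_Ed hy).2 (Or.inl ⟨rfl, trivial⟩))
      · simp [mem_Ed hy, d1, d2, d4, c]

end Pool.Agent.Results.MP_2fa24b_lc.Yes
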